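import Pool.Agent.Q205.Liou.Conf2

/-!
# Confined solutions of the planar `n`-body problem

The definitions of the planar `n`-body problem are those of the starting file
`Pool/Agent/W821/TB/Base.lean`: `Ph n = (Fin n → ℂ) × (Fin n → ℂ)`, positions and velocities;
`acc m q a`, the Newtonian acceleration; `phaseSpace m`, the phase points without collisions in the
centre of mass frame; `IsSol m J y`, `y` is a solution on the time set `J`.

From `Pool/Agent/Q205/Liou`:

* `Confined m z`: the solution starting at `z` exists for all positive times and its mutual distances
  are bounded above and bounded away from zero;
* `IsCom m z`, centre of mass at rest in the origin; `AlmostEvery m P`, `Generic m P`: in linear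
  coordinates (`IsCoord`) on the space `IsCom m`, `P` holds Lebesgue almost everywhere, on a
  residual set;
* `Recurrent m z`: the solution through `z` exists for all times and returns arbitrarily close to `z`
  at arbitrarily large positive and negative times;
* `IsTrapSet m C`: `C` is a compact set of collision free phase points such that solutions through
  points of `C` exist for all times and every solution which meets `C` lies in `C`.
-/

set_option autoImplicit false

namespace Pool.Agent.Results.MP_6e7c44_mp.ConfinedSolutions

open Pool.Agent.W821.TB Pool.Agent.Q205.Liou

/-- **Theorem.** Planar `n`-body problem with positive masses in the centre of mass frame. For every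
open set `U` of phase points one of the following holds: for generic initial conditions in `U` the
forward solution is not confined; or there are an open `V ⊆ U` containing points of the phase space
and a compact set `C` of collision free phase points containing all points of `V` in the centre of
mass frame, such that all solutions through points of `C` exist for all times and every solution
which is in `C` at one time is in `C` for all positive and negative times, and almost every and
generic points of `V` are recurrent in both time directions. -/
theorem result {n : ℕ} (m : Fin n → ℝ) (hm : ∀ a, 0 < m a) :
    ∀ U : Set (Ph n), IsOpen U →
      Generic m (fun z => z ∈ U → ¬ Confined m z) ∨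
      ∃ V C : Set (Ph n), IsOpen V ∧ V ⊆ U ∧ (∃ z ∈ V, z ∈ phaseSpace m) ∧
        (∀ z ∈ V, IsCom m z → z ∈ C) ∧ IsTrapSet m C ∧
        AlmostEvery m (fun z => z ∈ V → Recurrent m z) ∧
        Generic m (fun z => z ∈ V → Recurrent m z) :=
  fun _ hU => trap_or_generic hm hU

end Pool.Agent.Results.MP_6e7c44_mp.ConfinedSolutions
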