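import Mathlib

/-!
# Unbounded solutions of the three-body problem for generic masses

`𝓕` is the space of the masses, `X` the phase space (the non-collision initial conditions) and
`Φ : LocalFlows 𝓕 X` the family of the flows: `(f, t, x) ∈ Φ.D` means that the solution with masses
`f` and initial condition `x` exists at the time `t`, and `Φ.φ f t x` is its value there. Only the
following properties are used: the domain is open, and the solutions depend continuously on
`(f, t, x)`. The function `r f x` is the largest of the mutual distances (any jointly continuous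
function). Solutions may end in a collision; they are considered on their maximal interval.
-/

set_option autoImplicit false

namespace Pool.Agent.Results.MP_6e7c44_mp.GenericMasses

open Filter Topology Set

/-- a family of (not necessarily complete) flows with parameters in `𝓕` -/
structure LocalFlows (𝓕 X : Type*) [TopologicalSpace 𝓕] [TopologicalSpace X] where
  /-- `(f, t, x) ∈ D`: the solution for `f` with initial condition `x` exists at time `t` -/
  D : Set (𝓕 × ℝ × X)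
  /-- the solutions -/
  φ : 𝓕 → ℝ → X → X
  isOpen_D : IsOpen D
  zero_mem : ∀ f x, (f, 0, x) ∈ D
  zero : ∀ f x, φ f 0 x = x
  cont : ContinuousOn (fun z : 𝓕 × ℝ × X => φ z.1 z.2.1 z.2.2) D

/-- for the masses `f` the solutions starting in `V` satisfy `r ≤ R` as long as they exist -/
def IsUniform {𝓕 X : Type*} [TopologicalSpace 𝓕] [TopologicalSpace X] (Φ : LocalFlows 𝓕 X)
    (r : 𝓕 → X → ℝ) (f : 𝓕) (V : Set X) (R : ℝ) : Prop :=
  ∀ x ∈ V, ∀ t, (f, t, x) ∈ Φ.D → r f (Φ.φ f t x) ≤ R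

/-- for the masses `f` the solution with initial condition `x` is bounded on its maximal interval -/
def IsBoundedSolution {𝓕 X : Type*} [TopologicalSpace 𝓕] [TopologicalSpace X]
    (Φ : LocalFlows 𝓕 X) (r : 𝓕 → X → ℝ) (f : 𝓕) (x : X) : Prop :=
  ∃ R : ℝ, ∀ t, (f, t, x) ∈ Φ.D → r f (Φ.φ f t x) ≤ R

theorem isOpen_f {𝓕 X : Type*} [TopologicalSpace 𝓕] [TopologicalSpace X] (Φ : LocalFlows 𝓕 X)
    {r : 𝓕 → X → ℝ} (hr : Continuous (fun z : 𝓕 × X => r z.1 z.2)) (q t : ℝ) :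
    IsOpen {z : 𝓕 × X | (z.1, t, z.2) ∈ Φ.D ∧ q < r z.1 (Φ.φ z.1 t z.2)} := by
  have hi : Continuous (fun z : 𝓕 × X => (z.1, t, z.2)) := by fun_prop
  have hS : IsOpen {z : 𝓕 × X | (z.1, t, z.2) ∈ Φ.D} := Φ.isOpen_D.preimage hi
  have hc : ContinuousOn (fun z : 𝓕 × X => Φ.φ z.1 t z.2) {z : 𝓕 × X | (z.1, t, z.2) ∈ Φ.D} :=
    Φ.cont.comp hi.continuousOn (fun z hz => hz)
  have hg : ContinuousOn (fun z : 𝓕 × X => r z.1 (Φ.φ z.1 t z.2))
      {z : 𝓕 × X | (z.1, t, z.2) ∈ Φ.D} :=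
    hr.comp_continuousOn (continuousOn_fst.prodMk hc)
  exact hg.isOpen_inter_preimage hS (isOpen_Ioi (a := q))

theorem residual_or_bounded {𝓕 X : Type*} [TopologicalSpace 𝓕] [TopologicalSpace X]
    (Φ : LocalFlows 𝓕 X) {r : 𝓕 → X → ℝ} (hr : Continuous (fun z : 𝓕 × X => r z.1 z.2)) (f : 𝓕)
    {U : Set X} (hU : IsOpen U) :
    (∀ᶠ x in residual X, x ∈ U → ¬ IsBoundedSolution Φ r f x) ∨
      ∃ V : Set X, IsOpen V ∧ V.Nonempty ∧ V ⊆ U ∧ ∃ R : ℝ, IsUniform Φ r f V R := by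
  by_cases hd : ∀ n : ℕ, ∀ W : Set X, IsOpen W → W.Nonempty → W ⊆ U →
      ∃ x ∈ W, ∃ t, (f, t, x) ∈ Φ.D ∧ (n : ℝ) < r f (Φ.φ f t x)
  · left
    have key : ∀ n : ℕ, ∀ᶠ x in residual X, x ∈ U →
        ∃ t, (f, t, x) ∈ Φ.D ∧ (n : ℝ) < r f (Φ.φ f t x) := by
      intro n
      set O : Set X := ⋃ t : ℝ, {x | (f, t, x) ∈ Φ.D ∧ (n : ℝ) < r f (Φ.φ f t x)} with hO
      have hOo : IsOpen O := isOpen_iUnion fun t =>
        (isOpen_f Φ hr n t).preimage (by fun_prop : Continuous (fun x : X => (f, x)))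
      have ho : IsOpen (O ∪ (closure U)ᶜ) := hOo.union isClosed_closure.isOpen_compl
      have hdd : Dense (O ∪ (closure U)ᶜ) := by
        rw [dense_iff_inter_open]
        intro W hW hne
        by_cases hWU : (W ∩ U).Nonempty
        · obtain ⟨x, hx, t, ht⟩ := hd n (W ∩ U) (hW.inter hU) hWU inter_subset_right
          exact ⟨x, hx.1, Or.inl (mem_iUnion.2 ⟨t, ht⟩)⟩
        · obtain ⟨x, hx⟩ := hne
          refine ⟨x, hx, Or.inr fun hcl => ?_⟩
          rw [mem_closure_iff] at hcl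
          exact hWU (hcl W hW hx)
      filter_upwards [residual_of_dense_open ho hdd] with x hx hxU
      rcases hx with hx | hx
      · exact mem_iUnion.1 hx
      · exact (hx (subset_closure hxU)).elim
    filter_upwards [eventually_countable_forall.2 key] with x hx hxU
    rintro ⟨R, hR⟩
    obtain ⟨n, hn⟩ := exists_nat_ge R
    obtain ⟨t, ht1, ht2⟩ := hx n hxU
    exact absurd (hR t ht1) (not_le.2 (lt_of_le_of_lt hn ht2))
  · right
    push_neg at hd
    obtain ⟨n, W, hW, hne, hWU, hb⟩ := hd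
    exact ⟨W, hW, hne, hWU, n, hb⟩

/-- **Theorem.**
1. For generic masses `f`: if all solutions starting in a neighbourhood of `x` satisfy `r ≤ R`, then
   for all `R' > R` there are a neighbourhood `V` of `x` and a neighbourhood `𝓥` of `f` such that for
   ALL masses in `𝓥` all solutions starting in `V` satisfy `r ≤ R'`.
2. For generic masses `f`, for every open set `U`: either generic initial conditions in `U` have
   unbounded solutions, or there are a nonempty open `V ⊆ U`, a constant `R` and a neighbourhood `𝓥`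
   of `f` such that for all masses in `𝓥` all solutions starting in `V` satisfy `r ≤ R`.
3. Let `U` be open. If it is not true that for generic masses the generic initial condition in `U`
   has an unbounded solution, then there are nonempty open sets `𝓥` of masses and `V ⊆ U` and a
   constant `R` such that for all masses in `𝓥` all solutions starting in `V` satisfy `r ≤ R`. -/
theorem result {𝓕 X : Type*} [TopologicalSpace 𝓕] [TopologicalSpace X]
    [SecondCountableTopology X] (Φ : LocalFlows 𝓕 X) {r : 𝓕 → X → ℝ}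
    (hr : Continuous (fun z : 𝓕 × X => r z.1 z.2)) :
    (∀ᶠ f in residual 𝓕, ∀ x : X, ∀ R : ℝ, (∃ V ∈ 𝓝 x, IsUniform Φ r f V R) →
      ∀ R' : ℝ, R < R' → ∃ V ∈ 𝓝 x, ∃ 𝓥 ∈ 𝓝 f, ∀ f' ∈ 𝓥, IsUniform Φ r f' V R') ∧
    (∀ᶠ f in residual 𝓕, ∀ U : Set X, IsOpen U →
      (∀ᶠ x in residual X, x ∈ U → ¬ IsBoundedSolution Φ r f x) ∨
        ∃ V : Set X, IsOpen V ∧ V.Nonempty ∧ V ⊆ U ∧ ∃ R : ℝ, ∃ 𝓥 ∈ 𝓝 f, ∀ f' ∈ 𝓥,
          IsUniform Φ r f' V R) ∧
    (∀ U : Set X, IsOpen U →
      (¬ ∀ᶠ f in residual 𝓕, ∀ᶠ x in residual X, x ∈ U → ¬ IsBoundedSolution Φ r f x) →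
        ∃ 𝓥 : Set 𝓕, IsOpen 𝓥 ∧ 𝓥.Nonempty ∧ ∃ V : Set X, IsOpen V ∧ V.Nonempty ∧ V ⊆ U ∧
          ∃ R : ℝ, ∀ f' ∈ 𝓥, IsUniform Φ r f' V R) := by
  set ℬ := TopologicalSpace.countableBasis X
  haveI : Countable ℬ := (TopologicalSpace.countable_countableBasis X).to_subtype
  have h1 : ∀ᶠ f in residual 𝓕, ∀ x : X, ∀ R : ℝ, (∃ V ∈ 𝓝 x, IsUniform Φ r f V R) →
      ∀ R' : ℝ, R < R' → ∃ V ∈ 𝓝 x, ∃ 𝓥 ∈ 𝓝 f, ∀ f' ∈ 𝓥, IsUniform Φ r f' V R' := by
    set O : ℬ × ℚ → Set 𝓕 := fun a => {f | ∃ x ∈ (a.1 : Set X), ∃ t : ℝ, (f, t, x) ∈ Φ.D ∧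
      ((a.2 : ℚ) : ℝ) < r f (Φ.φ f t x)} with hO
    have hOo : ∀ a, IsOpen (O a) := by
      rintro ⟨B, q⟩
      have : O (B, q) = ⋃ x : (B : Set X), ⋃ t : ℝ,
          {f | (f, t, (x : X)) ∈ Φ.D ∧ ((q : ℚ) : ℝ) < r f (Φ.φ f t x)} := by
        ext f
        simp only [hO, mem_setOf_eq, mem_iUnion, Subtype.exists, exists_prop]
      rw [this]
      refine isOpen_iUnion fun x => isOpen_iUnion fun t => ?_
      exact (isOpen_f Φ hr q t).preimage (by fun_prop : Continuous (fun f : 𝓕 => (f, (x : X))))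
    have hres : ∀ᶠ f in residual 𝓕, ∀ a : ℬ × ℚ, f ∉ frontier (O a) := by
      rw [eventually_countable_forall]
      intro a
      have hd : Dense (frontier (O a))ᶜ := by
        have := interior_frontier (hOo a).isClosed_compl
        rw [frontier_compl] at this
        exact interior_eq_empty_iff_dense_compl.1 this
      exact residual_of_dense_open isClosed_frontier.isOpen_compl hd
    filter_upwards [hres] with f hf x R hV R' hR'
    obtain ⟨V, hV, hu⟩ := hV
    obtain ⟨q, hq1, hq2⟩ := exists_rat_btwn hR'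
    obtain ⟨B, hB, hxB, hBV⟩ := (TopologicalSpace.isBasis_countableBasis X).mem_nhds_iff.1 hV
    set a : ℬ × ℚ := ((⟨B, hB⟩ : ℬ), q) with ha
    have hfn : f ∉ O a := by
      rintro ⟨y, hy, t, htD, ht⟩
      have := hu y (hBV hy) t htD
      have h3 : ((a.2 : ℚ) : ℝ) = (q : ℝ) := rfl
      rw [h3] at ht
      linarith
    have hcl : f ∉ closure (O a) := by
      intro hcl
      exact hf a ⟨hcl, by rwa [(hOo a).interior_eq]⟩
    refine ⟨B, (TopologicalSpace.isOpen_of_mem_countableBasis hB).mem_nhds hxB,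
      (closure (O a))ᶜ, isClosed_closure.isOpen_compl.mem_nhds hcl, ?_⟩
    intro f' hf' y hy t htD
    by_contra hlt
    push_neg at hlt
    apply hf'
    apply subset_closure
    exact ⟨y, hy, t, htD, lt_trans hq2 hlt⟩
  have h2 : ∀ᶠ f in residual 𝓕, ∀ U : Set X, IsOpen U →
      (∀ᶠ x in residual X, x ∈ U → ¬ IsBoundedSolution Φ r f x) ∨
        ∃ V : Set X, IsOpen V ∧ V.Nonempty ∧ V ⊆ U ∧ ∃ R : ℝ, ∃ 𝓥 ∈ 𝓝 f, ∀ f' ∈ 𝓥,
          IsUniform Φ r f' V R := by
    filter_upwards [h1] with f hf U hU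
    rcases residual_or_bounded Φ hr f hU with h3 | ⟨V, hV, ⟨x, hx⟩, hVU, R, hR⟩
    · exact Or.inl h3
    · right
      obtain ⟨V', hV', 𝓥, h𝓥, hu⟩ := hf x R ⟨V, hV.mem_nhds hx, hR⟩ (R + 1) (by linarith)
      refine ⟨interior V' ∩ V, isOpen_interior.inter hV, ⟨x, mem_interior_iff_mem_nhds.2 hV', hx⟩,
        inter_subset_right.trans hVU, R + 1, 𝓥, h𝓥, fun f' hf' y hy t htD =>
          hu f' hf' y (interior_subset hy.1) t htD⟩
  refine ⟨h1, h2, ?_⟩
  intro U hU hneg
  by_contra hno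
  push_neg at hno
  apply hneg
  filter_upwards [h2] with f hf
  rcases hf U hU with h3 | ⟨V, hV, hne, hVU, R, 𝓥, h𝓥, hu⟩
  · exact h3
  · exfalso
    obtain ⟨f', hf', hn⟩ := hno (interior 𝓥) isOpen_interior
      ⟨f, mem_interior_iff_mem_nhds.2 h𝓥⟩ V hV hne hVU R
    exact hn (hu f' (interior_subset hf'))

end Pool.Agent.Results.MP_6e7c44_mp.GenericMasses
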