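import Pool.Agent.Q205.Wand.Bounded

/-!
# Open sets of bounded solutions: what a counterexample must look like

`X` is the set of initial conditions (in the centre of mass frame) whose solutions are defined for
all times, with its induced topology; `φ` is the flow on it; `μ` is the Liouville measure, `r` the
largest of the mutual distances and `H` the energy.  In the planar three-body problem the regions
`{r ≤ R, |H| ≤ R}` have finite volume although the momenta are unbounded near collisions.  The
theorem is about arbitrary complete flows with these properties.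

* `BoundedAlong φ r x`: `r` is bounded (above) along the orbit of `x` (the solution is bounded);
* `Wandering φ x`: some neighbourhood of `x` does not meet its images at large times;
* `Recurrent φ x`: the orbit of `x` returns to every neighbourhood of `x` at arbitrarily large
  times; `rev φ` is the flow with the time reversed.
-/

set_option autoImplicit false

namespace Pool.Agent.Results.MP_6e7c44_mp.OpenSetsOfBoundedSolutions

open Filter Topology Set MeasureTheory Pool.Agent.Q205.Wand

/-- **Theorem.**
1. For every open set `U`: either the generic initial condition in `U` has an unbounded solution, or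
   there is a nonempty open set `V ⊆ U` such that `r` is bounded by one constant along all the
   solutions starting in `V`.
2. Almost every bounded solution is recurrent in both directions of time.
3. Let `U` be an open set such that the initial conditions with bounded solutions are not of measure
   zero in any nonempty open subset of `U` (for example all solutions starting in `U` are bounded).
   Then there are no wandering points in `U`, and the generic initial condition in `U` has a solution
   which is recurrent in both directions of time.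
4. If all solutions starting in an open set `U` are bounded, there is an open set `W ⊆ U`, dense in
   `U`, such that the bounds are locally uniform in `W`. -/
theorem result {X : Type*} [TopologicalSpace X] [BaireSpace X] [SecondCountableTopology X]
    [MeasurableSpace X] [BorelSpace X] {φ : ℝ → X → X} (h : IsFlow φ) (μ : Measure X)
    [μ.IsOpenPosMeasure] (hμ : ∀ t, MeasurePreserving (φ t) μ μ) {r H : X → ℝ}
    (hr : Continuous r) (hH : Continuous H) (hinv : ∀ x t, H (φ t x) = H x)
    (hfin : ∀ R : ℝ, μ {x | r x ≤ R ∧ |H x| ≤ R} ≠ ⊤) :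
    (∀ U : Set X, IsOpen U → (∀ᶠ x in residual X, x ∈ U → ¬ BoundedAlong φ r x) ∨
      ∃ V : Set X, IsOpen V ∧ V.Nonempty ∧ V ⊆ U ∧ ∃ R : ℝ, ∀ x ∈ V, ∀ t, r (φ t x) ≤ R) ∧
    (∀ᵐ x ∂μ, BoundedAlong φ r x → Recurrent φ x ∧ Recurrent (rev φ) x) ∧
    (∀ U : Set X, IsOpen U →
      (∀ V : Set X, IsOpen V → V.Nonempty → V ⊆ U → μ {x | x ∈ V ∧ BoundedAlong φ r x} ≠ 0) →
      (∀ x ∈ U, ¬ Wandering φ x) ∧
      ∀ᶠ x in residual X, x ∈ U → Recurrent φ x ∧ Recurrent (rev φ) x) ∧
    (∀ U : Set X, IsOpen U → (∀ x ∈ U, BoundedAlong φ r x) →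
      ∃ W : Set X, IsOpen W ∧ W ⊆ U ∧ U ⊆ closure W ∧
        ∀ x ∈ W, ∃ V ∈ 𝓝 x, ∃ R : ℝ, ∀ y ∈ V, ∀ t, r (φ t y) ≤ R) := by
  have hpc : ∀ n : ℕ, ∀ᵐ x ∂μ, ((∀ t, r (φ t x) ≤ n) ∧ |H x| ≤ n) →
      Recurrent φ x ∧ Recurrent (rev φ) x := by
    intro n
    set S : Set X := {x | (∀ t, r (φ t x) ≤ n) ∧ |H x| ≤ n} with hS
    have hcl : IsClosed S := by
      have : S = (⋂ t : ℝ, {x | r (φ t x) ≤ n}) ∩ {x | |H x| ≤ n} := by
        ext x; simp [hS]
      rw [this]
      exact (isClosed_iInter fun t => isClosed_le (hr.comp (h.cont_t t)) continuous_const).inter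
        (isClosed_le hH.abs continuous_const)
    have hinvS : ∀ x ∈ S, ∀ t, φ t x ∈ S := by
      rintro x ⟨hx1, hx2⟩ t
      refine ⟨fun s => ?_, by rw [hinv]; exact hx2⟩
      rw [← h.add]
      exact hx1 _
    have hfinS : μ S ≠ ⊤ := by
      refine (lt_of_le_of_lt (measure_mono ?_) (lt_top_iff_ne_top.2 (hfin n))).ne
      rintro x ⟨hx1, hx2⟩
      have := hx1 0
      rw [h.zero] at this
      exact ⟨this, hx2⟩
    have h1 := poincare h μ hμ hcl.measurableSet hinvS hfinS
    have h2 := poincare h.rev μ (fun t => hμ (-t)) hcl.measurableSet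
      (fun x hx t => hinvS x hx (-t)) hfinS
    filter_upwards [h1, h2] with x hx1 hx2 hx
    exact ⟨hx1 hx, hx2 hx⟩
  have h2 : ∀ᵐ x ∂μ, BoundedAlong φ r x → Recurrent φ x ∧ Recurrent (rev φ) x := by
    filter_upwards [ae_all_iff.2 hpc] with x hx hb
    obtain ⟨R, hR⟩ := hb
    obtain ⟨n, hn⟩ := exists_nat_ge (max R |H x|)
    exact hx n ⟨fun t => (hR t).trans ((le_max_left _ _).trans hn), (le_max_right _ _).trans hn⟩
  refine ⟨fun U hU => residual_or_bounded h hr hU, h2, ?_, ?_⟩
  · intro U hU hpos
    have hw : ∀ x ∈ U, ¬ Wandering φ x := by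
      rintro x hxU ⟨V, hV, hxV, T, hT⟩
      apply hpos (V ∩ U) (hV.inter hU) ⟨x, hxV, hxU⟩ inter_subset_right
      refine measure_mono_null ?_ h2
      rintro y ⟨⟨hyV, _⟩, hyb⟩ hy
      obtain ⟨t, ht, hyt⟩ := (hy hyb).1 V (hV.mem_nhds hyV) T
      exact hT t ht y hyV hyt
    refine ⟨hw, ?_⟩
    have a1 := residual_recurrent h hU hw
    have a2 := residual_recurrent h.rev hU (fun x hx hwr => hw x hx ((wandering_rev h x).1 hwr))
    filter_upwards [a1, a2] with x hx1 hx2 hxU
    exact ⟨hx1 hxU, hx2 hxU⟩
  · intro U hU hb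
    set W : Set X := ⋃ V : {V : Set X // IsOpen V ∧ V ⊆ U ∧ ∃ R : ℝ, ∀ x ∈ V, ∀ t, r (φ t x) ≤ R},
      (V : Set X) with hW
    have hWo : IsOpen W := isOpen_iUnion fun V => V.2.1
    have hWU : W ⊆ U := iUnion_subset fun V => V.2.2.1
    refine ⟨W, hWo, hWU, ?_, ?_⟩
    · intro x hxU
      by_contra hcl
      have ho : IsOpen (U ∩ (closure W)ᶜ) := hU.inter isClosed_closure.isOpen_compl
      have hne : (U ∩ (closure W)ᶜ).Nonempty := ⟨x, hxU, hcl⟩
      rcases residual_or_bounded h hr ho with h3 | ⟨V, hV, hVne, hVU, R, hR⟩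
      · obtain ⟨y, hy1, hy2⟩ := (dense_of_mem_residual h3).inter_open_nonempty _ ho hne
        exact hy2 hy1 (hb y hy1.1)
      · obtain ⟨y, hy⟩ := hVne
        have hyW : y ∈ W := mem_iUnion.2
          ⟨⟨V, hV, fun z hz => (hVU hz).1, R, hR⟩, hy⟩
        exact (hVU hy).2 (subset_closure hyW)
    · intro x hx
      obtain ⟨⟨V, hV, _, R, hR⟩, hxV⟩ := mem_iUnion.1 hx
      exact ⟨V, hV.mem_nhds hxV, R, hR⟩

end Pool.Agent.Results.MP_6e7c44_mp.OpenSetsOfBoundedSolutions
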