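import Pool.Agent.Q205.Liou.LJ

/-!
# Bounded solutions of the planar `n`-body problem are almost all recurrent

The definitions of the planar `n`-body problem are those of the starting file
`Pool/Agent/W821/TB/Base.lean`: `Ph n = (Fin n → ℂ) × (Fin n → ℂ)`, positions and velocities;
`acc m q a`, the Newtonian acceleration; `phaseSpace m`, the phase points without collisions in the
centre of mass frame; `IsSol m J y`, `y` is a solution on the time set `J`.

From `Pool/Agent/Q205/Liou`:

* `BddDist y`: the mutual distances along `y` are bounded for positive times;
* `BoundedBy m R z`: the mutual distances along the forward solution starting at `z` are at most `R`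
  as long as the solution exists;
* `RecurrentForward m z`: the solution starting at `z` exists for all positive times and returns
  arbitrarily close to `z` at arbitrarily large times;
* `IsCom m z`, centre of mass at rest in the origin; `AlmostEvery m P`, `Generic m P`: in linear
  coordinates (`IsCoord`) on the space `IsCom m`, `P` holds Lebesgue almost everywhere, on a
  residual set.
-/

set_option autoImplicit false

namespace Pool.Agent.Results.MP_6e7c44_mp.RecurrentOrUnbounded

open Pool.Agent.W821.TB Pool.Agent.Q205.Liou

/-- **Theorem.** Planar `n`-body problem with positive masses in the centre of mass frame.

1. For almost every initial condition: if the solution exists for all positive times, it is recurrent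
   or its mutual distances are unbounded.
2. For every open set `U` of phase points one of the following holds: for generic initial conditions
   in `U` the mutual distances are unbounded along the forward solution on its interval of
   existence; or there are an open `V ⊆ U`, which contains points of the phase space, and a number
   `R` such that all mutual distances along all forward solutions starting in `V` are at most `R`
   as long as the solutions exist, and for almost every initial condition in `V`, if the solution
   exists for all positive times, it is recurrent. -/
theorem result {n : ℕ} (m : Fin n → ℝ) (hm : ∀ a, 0 < m a) :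
    AlmostEvery m (fun z => ∀ y : ℝ → Ph n, IsSol m (Set.Ici 0) y → y 0 = z → BddDist y →
      RecurrentForward m z) ∧
    ∀ U : Set (Ph n), IsOpen U →
      Generic m (fun z => z ∈ U → z ∈ phaseSpace m → ∀ R, ¬ BoundedBy m R z) ∨
      ∃ (V : Set (Ph n)) (R : ℝ), IsOpen V ∧ V ⊆ U ∧ (∃ z ∈ V, z ∈ phaseSpace m) ∧
        (∀ z ∈ V, BoundedBy m R z) ∧
        AlmostEvery m (fun z => z ∈ V → ∀ y : ℝ → Ph n, IsSol m (Set.Ici 0) y → y 0 = z →
          RecurrentForward m z) :=
  ⟨recurrent_of_bounded hm, fun _ hU => bounded_or_generic hm hU⟩

end Pool.Agent.Results.MP_6e7c44_mp.RecurrentOrUnbounded
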